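import Pool.Agent.Helper35.AHC.Final

/-!
# Approximate homomorphisms into matrices modulo low rank: the answer is yes

There is an absolute constant `C` such that for every prime `p`, all `n` and `r`, and every map `f`
from `𝔽_p^n` to the `n × n` matrices over `𝔽_p` with all `f(x+y) - f(x) - f(y)` of rank at most `r`
there is a linear map `L` with `rank (f(x) - L(x)) ≤ C r` for every `x`.

The proof is elementary; see `Pool.Agent.Helper35.AHC.Final` for the general form (every finite
abelian group in place of `𝔽_p^n` and every field), and the headers of the modules for the steps: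
0. self-correction in the rank metric; 1. good sets `S` and the spaces `P(S)` spanned by images of
defects; 2. reduction to few columns; 3. nested greedy selection; 4., 5. two corrections which
remove the dependence of the image of the defect on its arguments.
-/

namespace Pool.Agent.Results.MP_d3b2ec_co.AbsoluteConstant

theorem result : ∃ C : ℕ, ∀ (p : ℕ) [Fact p.Prime] (n r : ℕ)
    (f : (Fin n → ZMod p) → Matrix (Fin n) (Fin n) (ZMod p)),
    (∀ x y, (f (x + y) - f x - f y).rank ≤ r) →
      ∃ L : (Fin n → ZMod p) →ₗ[ZMod p] Matrix (Fin n) (Fin n) (ZMod p),
        ∀ x, (f x - L x).rank ≤ C * r :=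
  ⟨_, fun p _ n r f hf => AHC.ahc_matrix p n r f hf⟩

end Pool.Agent.Results.MP_d3b2ec_co.AbsoluteConstant
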