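import Mathlib
import Pool.Agent.Helper83.AH.BlockRank

/-!
# Approximate homomorphisms whose defect has low block rank

For an arbitrary map `f : 𝔽_p^n → Mat`, if the block matrix with blocks
`f(x+y) - f(x) - f(y)` (block row `x`, block column `y`) has rank `m`, then `f` is within rank `m` of
a linear map.
-/

set_option autoImplicit false

namespace Pool.Agent.Results.MP_d3b2ec_co.BlockRank

theorem result (p : ℕ) [Fact p.Prime] (n a b : ℕ)
    (f : (Fin n → ZMod p) → Matrix (Fin b) (Fin a) (ZMod p)) :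
    ∃ L : (Fin n → ZMod p) →ₗ[ZMod p] Matrix (Fin b) (Fin a) (ZMod p),
      ∀ x, (f x - L x).rank ≤
        (Matrix.of fun (i : (Fin n → ZMod p) × Fin b) (j : (Fin n → ZMod p) × Fin a) =>
          (f (i.1 + j.1) - f i.1 - f j.1) i.2 j.2).rank := by
  obtain ⟨ℓ, hℓ⟩ := Helper83.AH.block_rank f
  exact ⟨AddMonoidHom.toZModLinearMap p ℓ, fun x => by simpa [Helper83.AH.defectMatrix] using hℓ x⟩

end Pool.Agent.Results.MP_d3b2ec_co.BlockRank
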