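import Mathlib

/-!
# The constant in the rank stability of additive maps is at least two

For every prime `p ≥ 11`, every `r` and every `n ≥ 2r` there is a map `f` from `𝔽_p^n` to the
`n × n` matrices such that all `f(x+y)-f(x)-f(y)` have rank at most `r`, but for every linear map
`L` some `f(x) - L(x)` has rank at least `2r`.

The map is block diagonal with `r` blocks `[x³/3, x⁵/5; x⁵/5, x⁷/7]`, one for each of `r`
coordinates `x`.  With `Q = x² + xy + y²` the defect of one block is
`xy(x+y) (1, Q) (1, Q)ᵀ`.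
-/

set_option autoImplicit false

open MvPolynomial Matrix

namespace Pool.Agent.Results.MP_d3b2ec_co.ConstantTwo

section low

variable {σ R : Type*} [CommRing R]

theorem low_mul {A B : MvPolynomial σ R} {c d : ℕ}
    (hA : ∀ m : σ →₀ ℕ, c ≤ m.degree → A.coeff m = 0) (hB : B.totalDegree ≤ d)
    (m : σ →₀ ℕ) (hm : c + d ≤ m.degree) : (A * B).coeff m = 0 := by
  classical
  rw [coeff_mul]
  apply Finset.sum_eq_zero
  intro x hx
  rw [Finset.HasAntidiagonal.mem_antidiagonal] at hx
  have h1 : x.1.degree + x.2.degree = m.degree := by rw [← hx, map_add]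
  by_cases h2 : c ≤ x.1.degree
  · rw [hA _ h2, zero_mul]
  · have h3 : B.totalDegree < x.2.degree := by omega
    rw [coeff_eq_zero_of_totalDegree_lt (f := B) (d := x.2) h3, mul_zero]

theorem prod_low {ι : Type*} (S : Finset ι) (D E : ι → MvPolynomial σ R) (c : ι → ℕ)
    (hD : ∀ i, (D i).totalDegree ≤ c i) (hE : ∀ i, (E i).totalDegree < c i) :
    ∀ m : σ →₀ ℕ, ∑ i ∈ S, c i ≤ m.degree →
      (∏ i ∈ S, (D i + E i) - ∏ i ∈ S, D i).coeff m = 0 := by
  classical
  induction S using Finset.induction_on with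
  | empty => intro m _; simp
  | insert j S hj ih =>
    intro m hm
    rw [Finset.sum_insert hj] at hm
    rw [Finset.prod_insert hj, Finset.prod_insert hj]
    have e : (D j + E j) * ∏ i ∈ S, (D i + E i) - D j * ∏ i ∈ S, D i =
        (∏ i ∈ S, (D i + E i) - ∏ i ∈ S, D i) * (D j + E j) + E j * ∏ i ∈ S, D i := by ring
    rw [e, coeff_add]
    have h1 : (D j + E j).totalDegree ≤ c j :=
      (totalDegree_add _ _).trans (max_le (hD j) (hE j).le)
    rw [low_mul ih h1 m (by omega), zero_add]
    refine low_mul (c := c j) (d := ∑ i ∈ S, c i) ?_ ?_ m hm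
    · intro m' hm'
      exact coeff_eq_zero_of_totalDegree_lt (f := E j) (d := m') (lt_of_lt_of_le (hE j) hm')
    · exact (totalDegree_finsetProd _ _).trans (Finset.sum_le_sum fun i _ => hD i)

theorem det_low {ι : Type*} [Fintype ι] [DecidableEq ι]
    (D E : Matrix ι ι (MvPolynomial σ R)) (a b : ι → ℕ)
    (hD : ∀ i j, (D i j).totalDegree ≤ a i + b j)
    (hE : ∀ i j, (E i j).totalDegree < a i + b j) (m : σ →₀ ℕ)
    (hm : ∑ i, a i + ∑ i, b i = m.degree) :
    (D + E).det.coeff m = D.det.coeff m ∧ (D + E).det.totalDegree ≤ m.degree := by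
  have hsum : ∀ τ : Equiv.Perm ι, ∑ i, (a (τ i) + b i) = m.degree := by
    intro τ
    rw [Finset.sum_add_distrib, Equiv.sum_comp τ a, hm]
  constructor
  · rw [det_apply, det_apply, coeff_sum, coeff_sum]
    apply Finset.sum_congr rfl
    intro τ _
    rw [Units.smul_def, Units.smul_def, coeff_smul, coeff_smul]
    congr 1
    have := prod_low Finset.univ (fun i => D (τ i) i) (fun i => E (τ i) i)
      (fun i => a (τ i) + b i) (fun i => hD _ _) (fun i => hE _ _) m (hsum τ).le
    rw [coeff_sub, sub_eq_zero] at this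
    exact this
  · rw [det_apply]
    refine (totalDegree_finsetSum _ _).trans (Finset.sup_le ?_)
    intro τ _
    rw [Units.smul_def]
    refine (totalDegree_smul_le _ _).trans ?_
    refine (totalDegree_finsetProd _ _).trans ?_
    rw [← hsum τ]
    apply Finset.sum_le_sum
    intro i _
    exact (totalDegree_add _ _).trans (max_le (hD _ _) (hE _ _).le)

end low

variable (p : ℕ) [Fact p.Prime]

theorem natCast_ne_zero_of_lt (hp : 11 ≤ p) {k : ℕ} (hk : 0 < k) (hk' : k < 11) :
    ((k : ℕ) : ZMod p) ≠ 0 := by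
  intro h
  rw [ZMod.natCast_eq_zero_iff] at h
  have := Nat.le_of_dvd hk h
  omega

/-- the map `f` -/
noncomputable def f (r n : ℕ) (hn : 2 * r ≤ n) (x : Fin n → ZMod p) :
    Matrix (Fin n) (Fin n) (ZMod p) :=
  fun i j => if h : (i : ℕ) / 2 = (j : ℕ) / 2 ∧ (i : ℕ) / 2 < r then
    x ⟨(i : ℕ) / 2, by have := h.2; omega⟩ ^ (3 + 2 * ((i : ℕ) % 2 + (j : ℕ) % 2)) /
      ((3 + 2 * ((i : ℕ) % 2 + (j : ℕ) % 2) : ℕ) : ZMod p) else 0

theorem defect (hp : 11 ≤ p) (x y : ZMod p) {s t : ℕ} (hs : s < 2) (ht : t < 2) :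
    (x + y) ^ (3 + 2 * (s + t)) / ((3 + 2 * (s + t) : ℕ) : ZMod p) -
      x ^ (3 + 2 * (s + t)) / ((3 + 2 * (s + t) : ℕ) : ZMod p) -
      y ^ (3 + 2 * (s + t)) / ((3 + 2 * (s + t) : ℕ) : ZMod p) =
    (x ^ 2 + x * y + y ^ 2) ^ s * (x * y * (x + y) * (x ^ 2 + x * y + y ^ 2) ^ t) := by
  have h3 := natCast_ne_zero_of_lt p hp (k := 3) (by norm_num) (by norm_num)
  have h5 := natCast_ne_zero_of_lt p hp (k := 5) (by norm_num) (by norm_num)
  have h7 := natCast_ne_zero_of_lt p hp (k := 7) (by norm_num) (by norm_num)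
  interval_cases s <;> interval_cases t <;> simp only [add_zero, zero_add, mul_zero, mul_one,
    Nat.reduceAdd, Nat.reduceMul] <;> push_cast at h3 h5 h7 ⊢ <;> field_simp <;> ring

/-- the defects have rank at most `r` -/
theorem rank_defect (hp : 11 ≤ p) (r n : ℕ) (hn : 2 * r ≤ n) (x y : Fin n → ZMod p) :
    (f p r n hn (x + y) - f p r n hn x - f p r n hn y).rank ≤ r := by
  let ι : Fin r → Fin n := fun k => ⟨k, by omega⟩
  let Q : Fin r → ZMod p := fun k => x (ι k) ^ 2 + x (ι k) * y (ι k) + y (ι k) ^ 2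
  let B : Matrix (Fin n) (Fin r) (ZMod p) := fun i k =>
    if (i : ℕ) / 2 = k then Q k ^ ((i : ℕ) % 2) else 0
  let C : Matrix (Fin r) (Fin n) (ZMod p) := fun k j =>
    if (j : ℕ) / 2 = k then
      x (ι k) * y (ι k) * (x (ι k) + y (ι k)) * Q k ^ ((j : ℕ) % 2) else 0
  have h1 : f p r n hn (x + y) - f p r n hn x - f p r n hn y = B * C := by
    ext i j
    rw [Matrix.mul_apply]
    simp only [Matrix.sub_apply, f]
    by_cases h : (i : ℕ) / 2 = (j : ℕ) / 2 ∧ (i : ℕ) / 2 < r
    · rw [dif_pos h, dif_pos h, dif_pos h]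
      rw [Finset.sum_eq_single (⟨(i : ℕ) / 2, h.2⟩ : Fin r)]
      · simp only [B, C, if_pos, h.1.symm, Pi.add_apply]
        have := defect p hp (x ⟨(i : ℕ) / 2, by have := h.2; omega⟩)
          (y ⟨(i : ℕ) / 2, by have := h.2; omega⟩)
          (Nat.mod_lt (i : ℕ) two_pos) (Nat.mod_lt (j : ℕ) two_pos)
        rw [this]
      · intro k _ hk
        have : (i : ℕ) / 2 ≠ k := fun hh => hk (Fin.ext hh.symm)
        simp only [B, if_neg this, zero_mul]
      · intro hh; exact absurd (Finset.mem_univ _) hh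
    · rw [dif_neg h, dif_neg h, dif_neg h]
      symm
      rw [sub_zero, sub_zero]
      apply Finset.sum_eq_zero
      intro k _
      by_cases h1 : (i : ℕ) / 2 = k
      · have h2 : (j : ℕ) / 2 ≠ k := fun h2 => h ⟨h1.trans h2.symm, by rw [h1]; exact k.2⟩
        simp only [C, if_neg h2, mul_zero]
      · simp only [B, if_neg h1, zero_mul]
  rw [h1]
  exact (Matrix.rank_mul_le_left B C).trans ((Matrix.rank_le_card_width B).trans (by simp))

/-- the diagonal blocks as polynomial matrices -/
noncomputable def blk (r : ℕ) (k : Fin r) : Matrix (Fin 2) (Fin 2) (MvPolynomial (Fin r) (ZMod p)) :=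
  fun s t => MvPolynomial.C (((3 + 2 * ((s : ℕ) + (t : ℕ)) : ℕ) : ZMod p))⁻¹ *
    X k ^ (3 + 2 * ((s : ℕ) + (t : ℕ)))

theorem det_blk (hp : 11 ≤ p) (r : ℕ) (k : Fin r) :
    (blk p r k).det = monomial (Finsupp.single k 10) ((4 : ZMod p) / 525) := by
  have h3 := natCast_ne_zero_of_lt p hp (k := 3) (by norm_num) (by norm_num)
  have h5 := natCast_ne_zero_of_lt p hp (k := 5) (by norm_num) (by norm_num)
  have h7 := natCast_ne_zero_of_lt p hp (k := 7) (by norm_num) (by norm_num)
  push_cast at h3 h5 h7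
  rw [Matrix.det_fin_two]
  simp only [blk, Fin.val_zero, Fin.val_one, add_zero, zero_add, mul_zero, mul_one,
    Nat.reduceAdd, Nat.reduceMul]
  have e : (4 : ZMod p) / 525 = 3⁻¹ * 7⁻¹ - 5⁻¹ * 5⁻¹ := by
    have : (525 : ZMod p) = 3 * 5 ^ 2 * 7 := by norm_num
    rw [this]
    field_simp
    ring
  rw [e]
  rw [show monomial (Finsupp.single k 10) ((3 : ZMod p)⁻¹ * 7⁻¹ - 5⁻¹ * 5⁻¹) =
    MvPolynomial.C ((3 : ZMod p)⁻¹ * 7⁻¹ - 5⁻¹ * 5⁻¹) * X k ^ 10 from by
      rw [MvPolynomial.C_mul_X_pow_eq_monomial]]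
  push_cast
  rw [map_sub, map_mul, map_mul]
  ring

theorem coeff_det_D (hp : 11 ≤ p) (r : ℕ) :
    (blockDiagonal (blk p r)).det.coeff (Finsupp.equivFunOnFinite.symm fun _ => 10) ≠ 0 := by
  have h4 := natCast_ne_zero_of_lt p hp (k := 4) (by norm_num) (by norm_num)
  have h3 := natCast_ne_zero_of_lt p hp (k := 3) (by norm_num) (by norm_num)
  have h5 := natCast_ne_zero_of_lt p hp (k := 5) (by norm_num) (by norm_num)
  have h7 := natCast_ne_zero_of_lt p hp (k := 7) (by norm_num) (by norm_num)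
  push_cast at h3 h4 h5 h7
  rw [det_blockDiagonal]
  simp_rw [det_blk p hp]
  have e : ∏ k : Fin r, monomial (Finsupp.single k 10) ((4 : ZMod p) / 525) =
      monomial (∑ k : Fin r, Finsupp.single k 10) (((4 : ZMod p) / 525) ^ r) := by
    rw [monomial_sum_index]
    have e1 : ∀ k : Fin r, monomial (Finsupp.single k 10) ((4 : ZMod p) / 525) =
        MvPolynomial.C ((4 : ZMod p) / 525) * monomial (Finsupp.single k 10) (1 : ZMod p) := by
      intro k
      rw [C_mul_monomial, mul_one]
    simp_rw [e1]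
    rw [Finset.prod_mul_distrib, Finset.prod_const, Finset.card_univ, Fintype.card_fin, map_pow]
  have e2 : (∑ k : Fin r, Finsupp.single k 10 : Fin r →₀ ℕ) =
      Finsupp.equivFunOnFinite.symm fun _ => 10 := by
    ext i
    simp [Finsupp.finsetSum_apply, Finsupp.single_apply]
  rw [e, e2, coeff_monomial, if_pos rfl]
  apply pow_ne_zero
  apply div_ne_zero h4
  have : (525 : ZMod p) = 3 * 5 ^ 2 * 7 := by norm_num
  rw [this]
  exact mul_ne_zero (mul_ne_zero h3 (pow_ne_zero 2 h5)) h7

/-- For every prime `p ≥ 11`, every `r` and every `n ≥ 2r` there is a map from `𝔽_p^n` to the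
`n × n` matrices over `𝔽_p` which is additive up to rank `r` and which has distance at least
`2r` from every linear map. -/
theorem result (p : ℕ) [Fact p.Prime] (hp : 11 ≤ p) (r n : ℕ) (hn : 2 * r ≤ n) :
    ∃ f : (Fin n → ZMod p) → Matrix (Fin n) (Fin n) (ZMod p),
      (∀ x y, (f (x + y) - f x - f y).rank ≤ r) ∧
      ∀ L : (Fin n → ZMod p) →ₗ[ZMod p] Matrix (Fin n) (Fin n) (ZMod p),
        ∃ x, 2 * r ≤ (f x - L x).rank := by
  refine ⟨f p r n hn, rank_defect p hp r n hn, fun L => ?_⟩
  let ι : Fin r → Fin n := fun k => ⟨k, by omega⟩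
  let e : Fin 2 × Fin r → Fin n := fun a => ⟨2 * (a.2 : ℕ) + (a.1 : ℕ), by
    have := a.1.2; have := a.2.2; omega⟩
  let D : Matrix (Fin 2 × Fin r) (Fin 2 × Fin r) (MvPolynomial (Fin r) (ZMod p)) :=
    blockDiagonal (blk p r)
  let E : Matrix (Fin 2 × Fin r) (Fin 2 × Fin r) (MvPolynomial (Fin r) (ZMod p)) :=
    fun a b => -∑ k : Fin r, MvPolynomial.C (L (Pi.single (ι k) 1) (e a) (e b)) * X k
  have hdet := det_low D E (fun a => 2 * (a.1 : ℕ)) (fun b => 3 + 2 * (b.1 : ℕ)) ?_ ?_
    (Finsupp.equivFunOnFinite.symm fun _ => 10) ?_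
  rotate_left
  · -- degrees of the blocks
    intro a b
    simp only [D, blockDiagonal_apply]
    by_cases h : a.2 = b.2
    · rw [if_pos h]
      refine (totalDegree_mul _ _).trans ?_
      rw [totalDegree_C, zero_add]
      refine (totalDegree_pow _ _).trans ?_
      rw [totalDegree_X, mul_one]
      omega
    · rw [if_neg h]; simp
  · intro a b
    simp only [E]
    rw [totalDegree_neg]
    refine lt_of_le_of_lt (totalDegree_finsetSum _ _) ?_
    refine lt_of_le_of_lt (Finset.sup_le (a := 1) ?_) (by omega)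
    intro k _
    refine (totalDegree_mul _ _).trans ?_
    rw [totalDegree_C, totalDegree_X]
  · rw [Finsupp.degree_eq_sum]
    simp only [Finsupp.equivFunOnFinite_symm_apply_apply, Fintype.sum_prod_type, Fin.sum_univ_two,
      Finset.sum_const, Finset.card_univ, Fintype.card_fin, smul_eq_mul, Fin.val_zero,
      Fin.val_one]
    ring
  have hcoeff : (D + E).det.coeff (Finsupp.equivFunOnFinite.symm fun _ => 10) ≠ 0 := by
    rw [hdet.1]; exact coeff_det_D p hp r
  have htd : (D + E).det.totalDegree =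
      (Finsupp.equivFunOnFinite.symm fun _ : Fin r => 10).degree := by
    refine le_antisymm hdet.2 ?_
    by_contra hcon
    push Not at hcon
    exact hcoeff (coeff_eq_zero_of_totalDegree_lt hcon)
  obtain ⟨s, _, hs⟩ := combinatorial_nullstellensatz_exists_eval_nonzero (D + E).det _ hcoeff htd
    (fun _ => Finset.univ) (fun i => by
      simp only [Finsupp.equivFunOnFinite_symm_apply_apply, Finset.card_univ, ZMod.card]
      omega)
  let x : Fin n → ZMod p := ∑ k : Fin r, s k • Pi.single (ι k) 1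
  have hx : ∀ k : Fin r, x (ι k) = s k := by
    intro k
    simp only [x, Finset.sum_apply, Pi.smul_apply, smul_eq_mul]
    rw [Finset.sum_eq_single k]
    · simp
    · intro b _ hb
      have : ι k ≠ ι b := fun hh => hb (Fin.ext (by simpa [ι] using congrArg Fin.val hh.symm))
      rw [Pi.single_eq_of_ne this, mul_zero]
    · intro hh; exact absurd (Finset.mem_univ _) hh
  refine ⟨x, ?_⟩
  have hsub : (f p r n hn x - L x).submatrix e e = (D + E).map (eval s) := by
    ext a b
    rw [Matrix.submatrix_apply, Matrix.sub_apply, Matrix.map_apply, Matrix.add_apply, map_add]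
    simp only [D, E, blockDiagonal_apply]
    have hLx : L x (e a) (e b) = ∑ k : Fin r, L (Pi.single (ι k) 1) (e a) (e b) * s k := by
      simp only [x, map_sum, map_smul]
      rw [Matrix.sum_apply]
      apply Finset.sum_congr rfl
      intro k _
      rw [Matrix.smul_apply, smul_eq_mul, mul_comm]
    rw [hLx, sub_eq_add_neg]
    congr 1
    · have ha : ((e a : Fin n) : ℕ) / 2 = a.2 := by simp only [e]; have := a.1.2; omega
      have hb : ((e b : Fin n) : ℕ) / 2 = b.2 := by simp only [e]; have := b.1.2; omega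
      have ha' : ((e a : Fin n) : ℕ) % 2 = a.1 := by simp only [e]; have := a.1.2; omega
      have hb' : ((e b : Fin n) : ℕ) % 2 = b.1 := by simp only [e]; have := b.1.2; omega
      simp only [f]
      by_cases h : a.2 = b.2
      · rw [if_pos h, dif_pos ⟨by rw [ha, hb, h], by rw [ha]; exact a.2.2⟩]
        simp only [blk, map_mul, eval_C, map_pow, eval_X, ha, ha', hb']
        have : x ⟨(a.2 : ℕ), by omega⟩ = s a.2 := hx a.2
        rw [this, div_eq_mul_inv, mul_comm]
      · rw [if_neg h, dif_neg]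
        · simp
        · rw [ha, hb]
          intro hh
          exact h (Fin.ext hh.1)
    · simp
  have hrank : ((f p r n hn x - L x).submatrix e e).rank = 2 * r := by
    have : IsUnit ((f p r n hn x - L x).submatrix e e) := by
      rw [Matrix.isUnit_iff_isUnit_det, hsub]
      have : ((D + E).map (eval s)).det = eval s (D + E).det := by
        rw [RingHom.map_det]; rfl
      rw [this]
      exact isUnit_iff_ne_zero.2 hs
    rw [Matrix.rank_of_isUnit _ this]
    simp
  rw [← hrank]
  exact Matrix.rank_submatrix_le _ _ _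

end Pool.Agent.Results.MP_d3b2ec_co.ConstantTwo
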