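import Mathlib
import Pool.Agent.Helper83.AH.Quad

/-!
# Approximate homomorphisms of degree two

For every prime `p` (including `p = 2`) every map `f : 𝔽_p^n → Mat` of degree at most two whose
defects `f(x+y) - f(x) - f(y)` have rank at most `r` is within rank `2501 r` of a linear map.
-/

set_option autoImplicit false

namespace Pool.Agent.Results.MP_d3b2ec_co.QuadraticMaps

theorem result (p : ℕ) [Fact p.Prime] (n a b r : ℕ)
    (f : (Fin n → ZMod p) → Matrix (Fin b) (Fin a) (ZMod p))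
    (hquad : ∀ x y z, f (x + y + z) - f (x + y) - f (x + z) - f (y + z)
      + f x + f y + f z - f 0 = 0)
    (hrank : ∀ x y, (f (x + y) - f x - f y).rank ≤ r) :
    ∃ L : (Fin n → ZMod p) →ₗ[ZMod p] Matrix (Fin b) (Fin a) (ZMod p),
      ∀ x, (f x - L x).rank ≤ 2501 * r := by
  have key : ∃ ℓ : (Fin n → ZMod p) →+ Matrix (Fin b) (Fin a) (ZMod p),
      ∀ x, (f x - ℓ x).rank ≤ 2501 * r := by
    by_cases hp : p = 2
    · subst hp
      exact Helper83.AH.quad_two f hquad r hrank
    · obtain ⟨ℓ, hℓ⟩ := Helper83.AH.quad_odd p hp f hquad r hrank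
      exact ⟨ℓ, fun x => (hℓ x).trans (by omega)⟩
  obtain ⟨ℓ, hℓ⟩ := key
  exact ⟨AddMonoidHom.toZModLinearMap p ℓ, fun x => by simpa using hℓ x⟩

end Pool.Agent.Results.MP_d3b2ec_co.QuadraticMaps
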